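import Mathlib

/-!
Forms with at most one positive direction, and the rescaling argument that produces them from
trilinear forms.
-/

set_option autoImplicit false

namespace Pool.Agent.Lor

open Finset

variable {ι : Type} [Fintype ι] [DecidableEq ι]

/-- The bilinear form of a matrix. -/
def bf (A : ι → ι → ℝ) (x y : ι → ℝ) : ℝ := ∑ i, ∑ j, A i j * x i * y j

/-- The reversed Cauchy-Schwarz property. -/
def IsLor (A : ι → ι → ℝ) : Prop :=
  ∀ x y : ι → ℝ, 0 < bf A x x → bf A x x * bf A y y ≤ bf A x y ^ 2

theorem bf_comm (A : ι → ι → ℝ) (hA : ∀ i j, A i j = A j i) (x y : ι → ℝ) :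
    bf A x y = bf A y x := by
  unfold bf
  rw [sum_comm]
  refine sum_congr rfl fun i _ => sum_congr rfl fun j _ => ?_
  rw [hA j i]; ring

theorem bf_comb (A : ι → ι → ℝ) (hA : ∀ i j, A i j = A j i) (x y : ι → ℝ) (a b : ℝ) :
    bf A (fun i => a * x i - b * y i) (fun i => a * x i - b * y i) =
      a ^ 2 * bf A x x - 2 * a * b * bf A x y + b ^ 2 * bf A y y := by
  have h : 2 * a * b * bf A x y = a * b * bf A x y + a * b * bf A y x := by
    rw [bf_comm A hA y x]; ring
  rw [h]
  unfold bf
  simp only [mul_sum, ← sum_add_distrib, ← sum_sub_distrib]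
  refine sum_congr rfl fun i _ => sum_congr rfl fun j _ => ?_
  ring

theorem lor_of_functional (A : ι → ι → ℝ) (hA : ∀ i j, A i j = A j i) (m : ι → ℝ)
    (h : ∀ x : ι → ℝ, ∑ i, m i * x i = 0 → bf A x x ≤ 0) : IsLor A := by
  intro x y hx
  set a := ∑ i, m i * y i with ha
  set b := ∑ i, m i * x i with hb
  have hb0 : b ≠ 0 := by
    intro h0
    exact absurd (h x h0) (not_le.2 hx)
  have hz : ∑ i, m i * (a * x i - b * y i) = 0 := by
    have : ∑ i, m i * (a * x i - b * y i) = a * ∑ i, m i * x i - b * ∑ i, m i * y i := by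
      rw [mul_sum, mul_sum, ← sum_sub_distrib]
      refine sum_congr rfl fun i _ => ?_
      ring
    rw [this, ← ha, ← hb]; ring
  have h1 := h _ hz
  rw [bf_comb A hA] at h1
  have h2 : b ^ 2 * (bf A x x * bf A y y - bf A x y ^ 2) ≤ 0 := by
    nlinarith [sq_nonneg (a * bf A x x - b * bf A x y)]
  have hb2 : 0 < b ^ 2 := by positivity
  nlinarith

/-- Expansion of a symmetric form in an eigenbasis. -/
theorem exists_eigen (N : Matrix ι ι ℝ) (hN : N.IsHermitian) :
    ∃ (lam : ι → ℝ) (u : ι → ι → ℝ), (∀ k, N.mulVec (u k) = lam k • u k) ∧ (∀ k, u k ≠ 0) ∧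
      ∀ y : ι → ℝ, ∑ i, ∑ j, N i j * y i * y j = ∑ k, lam k * (∑ i, u k i * y i) ^ 2 := by
  refine ⟨hN.eigenvalues, fun k => hN.eigenvectorBasis k, fun k => ?_, fun k => ?_, fun y => ?_⟩
  · exact hN.mulVec_eigenvectorBasis k
  · intro h
    have h1 : hN.eigenvectorBasis k = 0 := by
      ext i
      exact congrFun h i
    exact (hN.eigenvectorBasis.orthonormal.ne_zero k) h1
  · have h := (hN.eigenvectorBasis).sum_inner_mul_inner (WithLp.toLp 2 y)
      (WithLp.toLp 2 (N.mulVec y))
    have e1 : inner ℝ (WithLp.toLp 2 y : EuclideanSpace ℝ ι) (WithLp.toLp 2 (N.mulVec y)) =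
        ∑ i, ∑ j, N i j * y i * y j := by
      simp only [PiLp.inner_apply, Matrix.mulVec, dotProduct, RCLike.inner_apply, conj_trivial]
      refine sum_congr rfl fun i _ => ?_
      rw [sum_mul]
      refine sum_congr rfl fun j _ => ?_
      ring
    rw [← e1, ← h]
    refine sum_congr rfl fun k _ => ?_
    have e2 : inner ℝ (WithLp.toLp 2 y : EuclideanSpace ℝ ι) (hN.eigenvectorBasis k) =
        ∑ i, hN.eigenvectorBasis k i * y i := by
      simp [PiLp.inner_apply]
    have e3 : inner ℝ (hN.eigenvectorBasis k) (WithLp.toLp 2 (N.mulVec y) : EuclideanSpace ℝ ι) =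
        hN.eigenvalues k * ∑ i, hN.eigenvectorBasis k i * y i := by
      have hs : ∀ i j, N i j = N j i := fun i j => by
        have := hN.apply i j
        simpa using this.symm
      have h4 : ∀ i, ∑ j, N i j * hN.eigenvectorBasis k j =
          hN.eigenvalues k * hN.eigenvectorBasis k i := by
        intro i
        have := congrFun (hN.mulVec_eigenvectorBasis k) i
        simpa [Matrix.mulVec, dotProduct] using this
      simp only [PiLp.inner_apply, Matrix.mulVec, dotProduct, RCLike.inner_apply, conj_trivial]
      simp only [sum_mul]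
      rw [sum_comm, mul_sum]
      refine sum_congr rfl fun j _ => ?_
      rw [← mul_assoc, ← h4 j, sum_mul]
      refine sum_congr rfl fun i _ => ?_
      rw [hs i j]; ring
    rw [e2, e3]; ring


/-- The rescaling argument: if all slices of a symmetric nonnegative trilinear form are Lorentzian
then so is its contraction with a positive vector, provided the contraction is connected. -/
theorem bochner (T : ι → ι → ι → ℝ) (h1 : ∀ i j k, T i j k = T j i k)
    (h2 : ∀ i j k, T i j k = T i k j) (hpos : ∀ i j k, 0 ≤ T i j k) (v : ι → ℝ)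
    (hv : ∀ i, 0 < v i) (hL : ∀ i, IsLor (T i))
    (hconn : ∀ r : ι → ℝ, (∀ a b, ∑ k, v k * T k a b ≠ 0 → r a = r b) →
      ∀ i j, ∑ b, (∑ k, v k * T k i b) * v b ≠ 0 → ∑ b, (∑ k, v k * T k j b) * v b ≠ 0 →
        r i = r j) :
    IsLor (fun a b => ∑ k, v k * T k a b) := by
  set A : ι → ι → ℝ := fun a b => ∑ k, v k * T k a b with hAdef
  have hAsymm : ∀ i j, A i j = A j i := fun i j => by
    simp only [hAdef]
    exact sum_congr rfl fun k _ => by rw [h2]
  have hApos : ∀ i j, 0 ≤ A i j := fun i j =>
    sum_nonneg fun k _ => mul_nonneg (hv k).le (hpos k i j)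
  set m : ι → ℝ := fun i => ∑ b, A i b * v b with hm
  have hmpos : ∀ i, 0 ≤ m i := fun i => sum_nonneg fun b _ => mul_nonneg (hApos i b) (hv b).le
  have hm0 : ∀ i, m i = 0 → ∀ b, A i b = 0 := by
    intro i hi b
    have h := (sum_eq_zero_iff_of_nonneg
      (fun b _ => mul_nonneg (hApos i b) (hv b).le)).1 hi b (mem_univ b)
    rcases mul_eq_zero.1 h with h | h
    · exact h
    · exact absurd h (hv b).ne'
  have hT0 : ∀ i, m i = 0 → ∀ j k, T i j k = 0 := by
    intro i hi j k
    have h := hm0 i hi k
    have h' := (sum_eq_zero_iff_of_nonneg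
      (fun l _ => mul_nonneg (hv l).le (hpos l i k))).1 h j (mem_univ j)
    rcases mul_eq_zero.1 h' with h' | h'
    · exact absurd h' (hv j).ne'
    · rw [h1]; exact h'
  set s : ι → ℝ := fun i => Real.sqrt (m i / v i) with hs
  have hs2 : ∀ i, s i * s i = m i / v i := fun i =>
    Real.mul_self_sqrt (div_nonneg (hmpos i) (hv i).le)
  have hs0 : ∀ i, s i = 0 → m i = 0 := by
    intro i hi
    have := hs2 i
    rw [hi, mul_zero] at this
    have h3 := this.symm
    rw [div_eq_zero_iff] at h3
    rcases h3 with h3 | h3
    · exact h3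
    · exact absurd h3 (hv i).ne'
  set N : Matrix ι ι ℝ := fun i j => A i j / (s i * s j) with hN
  have hNsymm : N.IsHermitian := by
    ext i j
    rw [Matrix.conjTranspose_apply, star_trivial]
    change A j i / (s j * s i) = A i j / (s i * s j)
    rw [hAsymm j i, mul_comm (s j)]
  have hNs : ∀ i j, N i j * (s i * s j) = A i j := by
    intro i j
    simp only [hN]
    by_cases h0 : s i * s j = 0
    · rcases mul_eq_zero.1 h0 with h | h
      · rw [hm0 i (hs0 i h) j]; simp
      · rw [hAsymm, hm0 j (hs0 j h) i]; simp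
    · rw [div_mul_cancel₀ _ h0]
  -- every eigenvector with a positive eigenvalue is a multiple of the distinguished vector
  have key : ∀ (lam : ℝ) (x : ι → ℝ), N.mulVec x = lam • x → x ≠ 0 → 0 < lam →
      ∃ c : ℝ, ∀ i, x i = c * (s i * v i) := by
    intro lam x hx hx0 hlam
    have hxi : ∀ i, ∑ j, N i j * x j = lam * x i := by
      intro i
      have := congrFun hx i
      simpa [Matrix.mulVec, dotProduct] using this
    have hxs : ∀ i, s i = 0 → x i = 0 := by
      intro i hi
      have h := hxi i
      have h' : ∑ j, N i j * x j = 0 := by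
        refine sum_eq_zero fun j _ => ?_
        simp [hN, hi]
      rw [h'] at h
      rcases mul_eq_zero.1 h.symm with h | h
      · exact absurd h hlam.ne'
      · exact h
    set z : ι → ℝ := fun i => x i / s i with hz
    have hsz : ∀ i, s i * z i = x i := by
      intro i
      by_cases h : s i = 0
      · rw [hxs i h, h]; simp
      · simp only [hz]; field_simp
    have hAz : ∀ i, ∑ j, A i j * z j = lam * (m i / v i) * z i := by
      intro i
      by_cases h : s i = 0
      · have hmi := hs0 i h
        rw [hmi]
        simp only [zero_div, mul_zero, zero_mul]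
        exact sum_eq_zero fun j _ => by rw [hm0 i hmi j, zero_mul]
      · have e : ∑ j, A i j * z j = s i * ∑ j, N i j * x j := by
          rw [mul_sum]
          refine sum_congr rfl fun j _ => ?_
          rw [← hNs i j, ← hsz j]; ring
        rw [e, hxi, ← hsz i, ← hs2 i]; ring
    have hTvv : ∀ i, bf (T i) v v = m i := by
      intro i
      simp only [hm, hAdef, bf]
      rw [sum_comm]
      refine sum_congr rfl fun b _ => ?_
      rw [sum_mul]
      refine sum_congr rfl fun k _ => ?_
      rw [h1 i k b]; ring
    have hTvz : ∀ i, bf (T i) v z = lam * (m i / v i) * z i := by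
      intro i
      rw [← hAz i]
      simp only [hAdef, bf]
      rw [sum_comm]
      refine sum_congr rfl fun b _ => ?_
      rw [sum_mul]
      refine sum_congr rfl fun k _ => ?_
      rw [h1 i k b]; ring
    have hineq : ∀ i, v i * bf (T i) z z ≤ lam ^ 2 * ((m i / v i) * z i ^ 2) := by
      intro i
      rcases (hmpos i).eq_or_lt with h | h
      · have e : bf (T i) z z = 0 := by
          unfold bf
          refine sum_eq_zero fun a _ => sum_eq_zero fun b _ => ?_
          rw [hT0 i h.symm a b]; ring
        rw [e, ← h]; simp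
      · have h3 := hL i v z (by rw [hTvv]; exact h)
        rw [hTvv, hTvz] at h3
        have hvi := hv i
        have h4 : bf (T i) z z ≤ (lam * (m i / v i) * z i) ^ 2 / m i := by
          rw [le_div_iff₀ h]
          linarith
        calc v i * bf (T i) z z ≤ v i * ((lam * (m i / v i) * z i) ^ 2 / m i) :=
              mul_le_mul_of_nonneg_left h4 hvi.le
          _ = lam ^ 2 * ((m i / v i) * z i ^ 2) := by
              field_simp
    set S : ℝ := ∑ i, (m i / v i) * z i ^ 2 with hS
    have hSx : S = ∑ i, x i ^ 2 := by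
      refine sum_congr rfl fun i _ => ?_
      rw [← hs2 i, ← hsz i]; ring
    have hSpos : 0 < S := by
      rw [hSx]
      obtain ⟨i, hi⟩ := Function.ne_iff.1 hx0
      refine sum_pos' (fun i _ => sq_nonneg _) ⟨i, mem_univ i, ?_⟩
      have : x i ≠ 0 := hi
      positivity
    have hsum1 : ∑ i, v i * bf (T i) z z = bf A z z := by
      simp only [bf, hAdef, mul_sum, sum_mul]
      rw [sum_comm]
      refine sum_congr rfl fun a _ => ?_
      rw [sum_comm]
      refine sum_congr rfl fun b _ => sum_congr rfl fun k _ => ?_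
      ring
    have hsum2 : bf A z z = lam * S := by
      have e : bf A z z = ∑ i, z i * ∑ j, A i j * z j := by
        unfold bf
        refine sum_congr rfl fun i _ => ?_
        rw [mul_sum]
        refine sum_congr rfl fun j _ => ?_
        ring
      rw [e, hS, mul_sum]
      refine sum_congr rfl fun i _ => ?_
      rw [hAz i]; ring
    have hlam1 : 1 ≤ lam := by
      have h3 : bf A z z ≤ lam ^ 2 * S := by
        rw [← hsum1, hS, mul_sum]
        exact sum_le_sum fun i _ => hineq i
      rw [hsum2] at h3
      by_contra hlt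
      push Not at hlt
      have : lam ^ 2 * S < lam * S := by
        apply mul_lt_mul_of_pos_right _ hSpos
        nlinarith
      linarith
    have hdir : ∑ i, ∑ j, A i j * v i * v j * (z i / v i - z j / v j) ^ 2 =
        2 * (S - lam * S) := by
      have e1 : ∑ i, ∑ j, A i j * v i * v j * (z i / v i) ^ 2 = S := by
        rw [hS]
        refine sum_congr rfl fun i _ => ?_
        have : m i / v i * z i ^ 2 = ∑ b, A i b * v b * (z i ^ 2 / v i) := by
          rw [← sum_mul]; simp only [hm]; ring
        rw [this]
        refine sum_congr rfl fun j _ => ?_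
        have hvi := (hv i).ne'
        field_simp
      have e2 : ∑ i, ∑ j, A i j * v i * v j * (z j / v j) ^ 2 = S := by
        rw [← e1, sum_comm]
        refine sum_congr rfl fun i _ => sum_congr rfl fun j _ => ?_
        rw [hAsymm j i]; ring
      have e3 : ∑ i, ∑ j, A i j * v i * v j * ((z i / v i) * (z j / v j)) = lam * S := by
        rw [← hsum2]
        unfold bf
        refine sum_congr rfl fun i _ => sum_congr rfl fun j _ => ?_
        have hvi := (hv i).ne'
        have hvj := (hv j).ne'
        field_simp
      have e4 : ∑ i, ∑ j, A i j * v i * v j * (z i / v i - z j / v j) ^ 2 =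
          ∑ i, ∑ j, A i j * v i * v j * (z i / v i) ^ 2 +
          ∑ i, ∑ j, A i j * v i * v j * (z j / v j) ^ 2 -
          2 * ∑ i, ∑ j, A i j * v i * v j * ((z i / v i) * (z j / v j)) := by
        simp only [mul_sum, ← sum_add_distrib, ← sum_sub_distrib]
        refine sum_congr rfl fun i _ => sum_congr rfl fun j _ => ?_
        ring
      rw [e4, e1, e2, e3]; ring
    have hterm : ∀ i j, 0 ≤ A i j * v i * v j * (z i / v i - z j / v j) ^ 2 := fun i j =>
      mul_nonneg (mul_nonneg (mul_nonneg (hApos i j) (hv i).le) (hv j).le) (sq_nonneg _)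
    have hlam2 : lam = 1 := by
      apply le_antisymm _ hlam1
      have h3 : 0 ≤ 2 * (S - lam * S) := by
        rw [← hdir]
        exact sum_nonneg fun i _ => sum_nonneg fun j _ => hterm i j
      by_contra hlt
      push Not at hlt
      nlinarith
    have hzero : ∀ i j, A i j * v i * v j * (z i / v i - z j / v j) ^ 2 = 0 := by
      have h3 : ∑ i, ∑ j, A i j * v i * v j * (z i / v i - z j / v j) ^ 2 = 0 := by
        rw [hdir, hlam2]; ring
      intro i j
      have h4 := (sum_eq_zero_iff_of_nonneg (fun i _ => sum_nonneg fun j _ => hterm i j)).1 h3 i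
        (mem_univ i)
      exact (sum_eq_zero_iff_of_nonneg (fun j _ => hterm i j)).1 h4 j (mem_univ j)
    have hr : ∀ a b, ∑ k, v k * T k a b ≠ 0 → z a / v a = z b / v b := by
      intro a b hab
      have h3 := hzero a b
      have h4 : A a b * v a * v b ≠ 0 :=
        mul_ne_zero (mul_ne_zero hab (hv a).ne') (hv b).ne'
      have h5 := (mul_eq_zero.1 h3).resolve_left h4
      exact sub_eq_zero.1 (pow_eq_zero_iff (two_ne_zero) |>.1 h5)
    have hcon := hconn (fun i => z i / v i) hr
    by_cases hex : ∃ i0, m i0 ≠ 0
    · obtain ⟨i0, hi0⟩ := hex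
      refine ⟨z i0 / v i0, fun i => ?_⟩
      by_cases hi : m i = 0
      · have : s i = 0 := by
          have h3 := hs2 i
          rw [hi, zero_div] at h3
          exact mul_self_eq_zero.1 h3
        rw [hxs i this, this]; ring
      · have h3 : z i / v i = z i0 / v i0 := hcon i i0 hi hi0
        rw [← h3, ← hsz i]
        have hvi := (hv i).ne'
        field_simp
    · push Not at hex
      refine ⟨0, fun i => ?_⟩
      have : s i = 0 := by
        have h3 := hs2 i
        rw [hex i, zero_div] at h3
        exact mul_self_eq_zero.1 h3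
      rw [hxs i this, zero_mul]
  obtain ⟨lam, u, hu1, hu2, hu3⟩ := exists_eigen N hNsymm
  apply lor_of_functional A hAsymm m
  intro x hx
  have e : bf A x x = ∑ i, ∑ j, N i j * (s i * x i) * (s j * x j) := by
    unfold bf
    refine sum_congr rfl fun i _ => sum_congr rfl fun j _ => ?_
    rw [← hNs i j]; ring
  rw [e, hu3]
  refine sum_nonpos fun k _ => ?_
  rcases le_or_gt (lam k) 0 with h | h
  · exact mul_nonpos_of_nonpos_of_nonneg h (sq_nonneg _)
  · obtain ⟨c, hc⟩ := key (lam k) (u k) (hu1 k) (hu2 k) h
    have h0 : ∑ i, u k i * (s i * x i) = 0 := by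
      have : ∑ i, u k i * (s i * x i) = c * ∑ i, m i * x i := by
        rw [mul_sum]
        refine sum_congr rfl fun i _ => ?_
        rw [hc i]
        have h3 : m i = s i * s i * v i := by
          rw [hs2 i]
          have hvi := (hv i).ne'
          field_simp
        rw [h3]; ring
      rw [this, hx, mul_zero]
    rw [h0]; simp

end Pool.Agent.Lor
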