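import Mathlib
import Pool.Agent.Lor.Bochner

/-!
Normalised generating functions of M-convex sets are Lorentzian.
-/

set_option autoImplicit false

namespace Pool.Agent.Lor

open Finset

variable {ι : Type} [Fintype ι] [DecidableEq ι]

/-- The unit vector. -/
abbrev ee (i : ι) : ι → ℕ := Pi.single i 1

theorem ee_self (i : ι) : ee i i = 1 := by simp [ee]

theorem ee_ne {i j : ι} (h : j ≠ i) : ee i j = 0 := by simp [ee, h]

theorem ee_apply (i j : ι) : ee i j = if j = i then 1 else 0 := by
  by_cases h : j = i
  · subst h; simp [ee]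
  · simp [ee, h]

/-- M-convex sets, by the exchange property. -/
def MConv (J : Set (ι → ℕ)) : Prop :=
  ∀ α ∈ J, ∀ β ∈ J, ∀ i, β i < α i → ∃ j, α j < β j ∧ ∃ γ ∈ J, γ + ee i = α + ee j

theorem sum_ee (i : ι) : ∑ j, ee i j = 1 := by simp [ee]

theorem MConv.shift {J : Set (ι → ℕ)} (hJ : MConv J) (δ : ι → ℕ) :
    MConv {α | α + δ ∈ J} := by
  intro α hα β hβ i hi
  obtain ⟨j, hj, γ, hγ, hγe⟩ := hJ (α + δ) hα (β + δ) hβ i (by simpa using hi)
  have hij : j ≠ i := by
    rintro rfl
    simp only [Pi.add_apply] at hj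
    omega
  refine ⟨j, by simpa using hj, ?_⟩
  have hle : ∀ k, δ k ≤ γ k := by
    intro k
    have h := congrFun hγe k
    simp only [Pi.add_apply, ee_apply] at h
    by_cases hk : k = i
    · subst hk
      simp only [if_true] at h
      have : ¬ (k = j) := fun h' => hij h'.symm
      simp only [this, if_false] at h
      omega
    · simp only [hk, if_false] at h
      omega
  refine ⟨fun k => γ k - δ k, ?_, ?_⟩
  · have : (fun k => γ k - δ k) + δ = γ := by
      funext k
      have := hle k
      simp only [Pi.add_apply]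
      omega
    simpa [this] using hγ
  · funext k
    have h := congrFun hγe k
    have h2 := hle k
    simp only [Pi.add_apply] at h ⊢
    omega

/-- Directional derivative of normalised coefficients. -/
def D (v : ι → ℝ) (c : (ι → ℕ) → ℝ) : (ι → ℕ) → ℝ := fun α => ∑ i, v i * c (α + ee i)

/-- Iterated directional derivatives. -/
def DL (l : List (ι → ℝ)) (c : (ι → ℕ) → ℝ) : (ι → ℕ) → ℝ := l.foldr D c

@[simp] theorem DL_nil (c : (ι → ℕ) → ℝ) : DL [] c = c := rfl
@[simp] theorem DL_cons (v : ι → ℝ) (l : List (ι → ℝ)) (c : (ι → ℕ) → ℝ) :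
    DL (v :: l) c = D v (DL l c) := rfl

/-- The Hessian at the bottom. -/
def hess (c : (ι → ℕ) → ℝ) : ι → ι → ℝ := fun i j => c (ee i + ee j)

open Classical in
/-- Indicator function of a set of exponents. -/
noncomputable def ind (J : Set (ι → ℕ)) : (ι → ℕ) → ℝ := fun α => if α ∈ J then 1 else 0

theorem DL_shift (l : List (ι → ℝ)) (c : (ι → ℕ) → ℝ) (δ : ι → ℕ) (α : ι → ℕ) :
    DL l (fun β => c (β + δ)) α = DL l c (α + δ) := by
  induction l generalizing α with
  | nil => rfl
  | cons v l ih =>
    simp only [DL_cons, D]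
    refine sum_congr rfl fun i _ => ?_
    rw [ih, add_right_comm]

theorem DL_nonneg (l : List (ι → ℝ)) (hl : ∀ v ∈ l, ∀ i, 0 ≤ v i) (c : (ι → ℕ) → ℝ)
    (hc : ∀ α, 0 ≤ c α) (α : ι → ℕ) : 0 ≤ DL l c α := by
  induction l generalizing α with
  | nil => exact hc α
  | cons v l ih =>
    simp only [DL_cons, D]
    exact sum_nonneg fun i _ => mul_nonneg (hl v (by simp) i)
      (ih (fun w hw => hl w (by simp [hw])) _)

theorem ind_nonneg (J : Set (ι → ℕ)) (α : ι → ℕ) : 0 ≤ ind J α := by
  unfold ind; split_ifs <;> norm_num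

theorem DL_pos (l : List (ι → ℝ)) (hl : ∀ v ∈ l, ∀ i, 0 < v i) (J : Set (ι → ℕ))
    (α γ : ι → ℕ) (hγ : γ ∈ J) (hle : ∀ i, α i ≤ γ i)
    (hsum : ∑ i, α i + l.length = ∑ i, γ i) : 0 < DL l (ind J) α := by
  induction l generalizing α with
  | nil =>
    have h : α = γ := by
      funext i
      by_contra hne
      have hlt : α i < γ i := lt_of_le_of_ne (hle i) hne
      have : ∑ i, α i < ∑ i, γ i := sum_lt_sum (fun i _ => hle i) ⟨i, mem_univ i, hlt⟩
      simp only [List.length_nil, add_zero] at hsum
      omega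
    simp [ind, h, hγ]
  | cons v l ih =>
    have hex : ∃ i, α i < γ i := by
      by_contra hno
      push Not at hno
      have : ∑ i, γ i ≤ ∑ i, α i := sum_le_sum fun i _ => hno i
      simp only [List.length_cons] at hsum
      omega
    obtain ⟨i, hi⟩ := hex
    simp only [DL_cons, D]
    refine sum_pos' (fun j _ => mul_nonneg (hl v (by simp) j).le
      (DL_nonneg l (fun w hw k => (hl w (by simp [hw]) k).le) _ (ind_nonneg J) _))
      ⟨i, mem_univ i, ?_⟩
    apply mul_pos (hl v (by simp) i)
    apply ih (fun w hw => hl w (by simp [hw]))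
    · intro k
      simp only [Pi.add_apply, ee_apply]
      split_ifs with h
      · subst h; omega
      · simpa using hle k
    · simp only [Pi.add_apply, sum_add_distrib, sum_ee]
      simp only [List.length_cons] at hsum
      omega

theorem DL_ne_zero (l : List (ι → ℝ)) (J : Set (ι → ℕ)) (α : ι → ℕ)
    (h : DL l (ind J) α ≠ 0) : ∃ γ ∈ J, ∀ i, α i ≤ γ i := by
  induction l generalizing α with
  | nil =>
    simp only [DL_nil, ind] at h
    split_ifs at h with hα
    · exact ⟨α, hα, fun i => le_rfl⟩
    · exact absurd rfl h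
  | cons v l ih =>
    simp only [DL_cons, D] at h
    obtain ⟨i, -, hi⟩ := exists_ne_zero_of_sum_ne_zero h
    obtain ⟨γ, hγ, hle⟩ := ih (α + ee i) (fun h0 => hi (by rw [h0, mul_zero]))
    exact ⟨γ, hγ, fun k => le_trans (by simp) (hle k)⟩

/-- Two non-loops are connected through at most one intermediate index. -/
theorem connect {J : Set (ι → ℕ)} (hJ : MConv J) {N : ℕ} (hN : 2 ≤ N)
    (hdeg : ∀ α ∈ J, ∑ i, α i = N) (r : ι → ℝ)
    (hr : ∀ a b, (∃ γ ∈ J, ∀ k, (ee a + ee b) k ≤ γ k) → r a = r b)
    (i j : ι) (α β : ι → ℕ) (hα : α ∈ J) (hβ : β ∈ J) (hi : 1 ≤ α i) (hj : 1 ≤ β j) :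
    r i = r j := by
  have pair : ∀ a b (γ : ι → ℕ), γ ∈ J → a ≠ b → 1 ≤ γ a → 1 ≤ γ b → r a = r b := by
    intro a b γ hγ hab h1 h2
    apply hr
    refine ⟨γ, hγ, fun k => ?_⟩
    simp only [Pi.add_apply, ee_apply]
    by_cases hka : k = a
    · subst hka; simp [hab, h1]
    · by_cases hkb : k = b
      · subst hkb; simp [hka, h2]
      · simp [hka, hkb]
  by_cases hij : i = j
  · rw [hij]
  by_cases hαj : 1 ≤ α j
  · exact pair i j α hα hij hi hαj
  by_cases hβi : 1 ≤ β i
  · exact pair i j β hβ hij hβi hj
  have hαj0 : α j = 0 := by omega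
  have hβi0 : β i = 0 := by omega
  by_cases hl : ∃ l, β l < α l ∧ (l ≠ i ∨ 2 ≤ α i)
  · obtain ⟨l, hl1, hl2⟩ := hl
    obtain ⟨m, hm, γ, hγ, hγe⟩ := hJ α hα β hβ l hl1
    have hmi : m ≠ i := by
      rintro rfl
      omega
    have hml : m ≠ l := by
      rintro rfl
      omega
    have h1 := congrFun hγe i
    have h2 := congrFun hγe m
    simp only [Pi.add_apply, ee_apply] at h1 h2
    rw [if_neg hmi.symm] at h1
    rw [if_neg hml, if_pos trivial] at h2
    have hγi : 1 ≤ γ i := by
      by_cases hli : i = l
      · rw [if_pos hli] at h1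
        rcases hl2 with h | h
        · exact absurd hli.symm h
        · omega
      · rw [if_neg hli] at h1
        omega
    have hγm : 1 ≤ γ m := by omega
    have e1 : r i = r m := pair i m γ hγ hmi.symm hγi hγm
    have e2 : r m = r j := by
      by_cases hmj : m = j
      · rw [hmj]
      · exact pair m j β hβ hmj (by omega) hj
    exact e1.trans e2
  · push Not at hl
    have hi1 : α i = 1 := by
      have := (hl i (by omega)).2
      omega
    have hex : ∃ l, l ≠ i ∧ 1 ≤ α l := by
      by_contra hno
      push Not at hno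
      have : ∑ k, α k = α i := by
        apply Fintype.sum_eq_single
        intro k hk
        have := hno k hk
        omega
      rw [hdeg α hα] at this
      omega
    obtain ⟨l, hli, hl1⟩ := hex
    have hlβ : α l ≤ β l := by
      by_contra hlt
      push Not at hlt
      exact hli (hl l hlt).1
    have hlj : l ≠ j := by
      rintro rfl
      omega
    exact (pair i l α hα hli.symm hi hl1).trans (pair l j β hβ hlj (by omega) hj)

/-- A symmetric and transitive relation gives a positive semidefinite matrix. -/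
theorem psd_of_equiv (R : ι → ι → Prop) [DecidableRel R] (hs : ∀ i j, R i j → R j i)
    (ht : ∀ i j k, R i j → R j k → R i k) (x : ι → ℝ) :
    0 ≤ ∑ i, ∑ j, (if R i j then (1 : ℝ) else 0) * x i * x j := by
  set n : ι → ℝ := fun i => ∑ k, if R i k then (1 : ℝ) else 0 with hn
  have hn0 : ∀ i, 0 ≤ n i := fun i => sum_nonneg fun k _ => by split_ifs <;> norm_num
  have hkey : ∀ i j, (if R i j then (1 : ℝ) else 0) =
      ∑ k, (1 / n k) * ((if R k i then (1 : ℝ) else 0) * (if R k j then (1 : ℝ) else 0)) := by
    intro i j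
    by_cases hij : R i j
    · have hnk : ∀ k, R k i → n k = n i := by
        intro k hki
        simp only [hn]
        refine sum_congr rfl fun l _ => ?_
        have : R k l ↔ R i l := ⟨fun h => ht i k l (hs k i hki) h, fun h => ht k i l hki h⟩
        simp only [this]
      have hni : 0 < n i := by
        simp only [hn]
        refine sum_pos' (fun k _ => by split_ifs <;> norm_num) ⟨j, mem_univ j, by simp [hij]⟩
      have e : ∀ k, (1 / n k) * ((if R k i then (1 : ℝ) else 0) * (if R k j then (1 : ℝ) else 0)) =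
          (1 / n i) * (if R i k then (1 : ℝ) else 0) := by
        intro k
        by_cases hki : R k i
        · have hkj : R k j := ht k i j hki hij
          simp [hki, hkj, hs k i hki, hnk k hki]
        · have hik : ¬ R i k := fun h => hki (hs i k h)
          simp [hki, hik]
      rw [if_pos hij, sum_congr rfl fun k _ => e k, ← mul_sum]
      change 1 = 1 / n i * n i
      field_simp
    · rw [if_neg hij]
      symm
      refine sum_eq_zero fun k _ => ?_
      by_cases hki : R k i
      · by_cases hkj : R k j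
        · exact absurd (ht i k j (hs k i hki) hkj) hij
        · simp [hkj]
      · simp [hki]
  have e : ∑ i, ∑ j, (if R i j then (1 : ℝ) else 0) * x i * x j =
      ∑ k, (1 / n k) * (∑ i, (if R k i then (1 : ℝ) else 0) * x i) ^ 2 := by
    have e1 : ∀ i j, (if R i j then (1 : ℝ) else 0) * x i * x j =
        ∑ k, (1 / n k) * (((if R k i then (1 : ℝ) else 0) * x i) *
          ((if R k j then (1 : ℝ) else 0) * x j)) := by
      intro i j
      rw [hkey i j, sum_mul, sum_mul]
      refine sum_congr rfl fun k _ => ?_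
      ring
    simp only [e1]
    have e2 : ∀ i, ∑ j, ∑ k, (1 / n k) * (((if R k i then (1 : ℝ) else 0) * x i) *
          ((if R k j then (1 : ℝ) else 0) * x j)) =
        ∑ k, ∑ j, (1 / n k) * (((if R k i then (1 : ℝ) else 0) * x i) *
          ((if R k j then (1 : ℝ) else 0) * x j)) := fun i => sum_comm
    simp only [e2]
    rw [sum_comm]
    refine sum_congr rfl fun k _ => ?_
    rw [sq, sum_mul_sum, mul_sum]
    refine sum_congr rfl fun i _ => ?_
    rw [mul_sum]
  rw [e]
  exact sum_nonneg fun k _ => mul_nonneg (by have := hn0 k; positivity) (sq_nonneg _)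

theorem hess_symm (c : (ι → ℕ) → ℝ) (i j : ι) : hess c i j = hess c j i := by
  simp only [hess, add_comm]

/-- The base case: M-convex sets of degree two. -/
theorem base (J : Set (ι → ℕ)) (hJ : MConv J) : IsLor (hess (ind J)) := by
  classical
  set NL : ι → Prop := fun i => ∃ j, ee i + ee j ∈ J with hNL
  apply lor_of_functional _ (hess_symm _) (fun i => if NL i then 1 else 0)
  intro x hx
  set R : ι → ι → Prop := fun i j => NL i ∧ NL j ∧ ee i + ee j ∉ J with hR
  have hs : ∀ i j, R i j → R j i := fun i j h => ⟨h.2.1, h.1, by rw [add_comm]; exact h.2.2⟩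
  have ht : ∀ i j k, R i j → R j k → R i k := by
    intro i j k hij hjk
    refine ⟨hij.1, hjk.2.1, fun hik => ?_⟩
    obtain ⟨l, hl⟩ := hij.2.1
    have hsupp : ∀ m, (ee j + ee l) m < (ee i + ee k) m → m = i ∨ m = k := by
      intro m hm
      by_contra hno
      push Not at hno
      simp [ee_apply, hno.1, hno.2] at hm
    by_cases hlt : (ee i + ee k) l < (ee j + ee l) l
    · obtain ⟨m, hm, γ, hγ, hγe⟩ := hJ _ hl _ hik l hlt
      have hγ2 : γ = ee j + ee m := by
        have : γ + ee l = (ee j + ee m) + ee l := by rw [hγe, add_right_comm]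
        exact add_right_cancel this
      rw [hγ2] at hγ
      rcases hsupp m hm with rfl | rfl
      · exact hij.2.2 (by rw [add_comm]; exact hγ)
      · exact hjk.2.2 hγ
    · have : l = i ∨ l = k := by
        by_contra hno
        push Not at hno
        apply hlt
        simp [ee_apply, hno.1, hno.2]
      rcases this with rfl | rfl
      · exact hij.2.2 (by rw [add_comm]; exact hl)
      · exact hjk.2.2 hl
  have hpsd := psd_of_equiv R hs ht x
  have hent : ∀ i j, hess (ind J) i j = (if NL i then (1 : ℝ) else 0) * (if NL j then 1 else 0) -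
      (if R i j then 1 else 0) := by
    intro i j
    simp only [hess, ind]
    by_cases hij : ee i + ee j ∈ J
    · have h1 : NL i := ⟨j, hij⟩
      have h2 : NL j := ⟨i, by rw [add_comm]; exact hij⟩
      have h3 : ¬ R i j := fun h => h.2.2 hij
      simp [hij, h1, h2, h3]
    · by_cases h1 : NL i
      · by_cases h2 : NL j
        · have h3 : R i j := ⟨h1, h2, hij⟩
          simp [hij, h1, h2, h3]
        · have h3 : ¬ R i j := fun h => h2 h.2.1
          simp [hij, h2, h3]
      · have h3 : ¬ R i j := fun h => h1 h.1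
        simp [hij, h1, h3]
  have e : bf (hess (ind J)) x x = (∑ i, (if NL i then (1 : ℝ) else 0) * x i) ^ 2 -
      ∑ i, ∑ j, (if R i j then (1 : ℝ) else 0) * x i * x j := by
    rw [sq, sum_mul_sum, ← sum_sub_distrib]
    unfold bf
    refine sum_congr rfl fun i _ => ?_
    rw [← sum_sub_distrib]
    refine sum_congr rfl fun j _ => ?_
    rw [hent i j]; ring
  rw [e, hx]
  have : (0 : ℝ) ^ 2 = 0 := by norm_num
  linarith

/-- Strictly positive directions are enough. -/
theorem lor_of_pos (c : (ι → ℕ) → ℝ) (k : ℕ)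
    (h : ∀ l : List (ι → ℝ), l.length = k → (∀ v ∈ l, ∀ i, 0 < v i) → IsLor (hess (DL l c)))
    (l : List (ι → ℝ)) (hlen : l.length = k) (hl : ∀ v ∈ l, ∀ i, 0 ≤ v i) :
    IsLor (hess (DL l c)) := by
  set lt : ℝ → List (ι → ℝ) := fun t => l.map (fun v i => v i + t) with hlt
  have hcont : ∀ (l : List (ι → ℝ)) (α : ι → ℕ),
      Continuous (fun t : ℝ => DL (l.map (fun v i => v i + t)) c α) := by
    intro l
    induction l with
    | nil => intro α; simpa using continuous_const
    | cons v l ih =>
      intro α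
      simp only [List.map_cons, DL_cons, D]
      refine continuous_finsetSum _ fun i _ => ?_
      exact ((continuous_const.add continuous_id).mul (ih _))
  have hbf : ∀ x y : ι → ℝ, Continuous (fun t : ℝ => bf (hess (DL (lt t) c)) x y) := by
    intro x y
    unfold bf hess
    refine continuous_finsetSum _ fun i _ => continuous_finsetSum _ fun j _ => ?_
    exact ((hcont l _).mul continuous_const).mul continuous_const
  have h0 : lt 0 = l := by simp [hlt]
  intro x y hxx
  have hpos : ∀ᶠ t in nhdsWithin (0 : ℝ) (Set.Ioi 0), 0 < bf (hess (DL (lt t) c)) x x := by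
    have : ∀ᶠ t in nhds (0 : ℝ), 0 < bf (hess (DL (lt t) c)) x x := by
      have h1 := (hbf x x).tendsto 0
      rw [h0] at h1
      exact h1.eventually (lt_mem_nhds hxx)
    exact this.filter_mono nhdsWithin_le_nhds
  have hev : ∀ᶠ t in nhdsWithin (0 : ℝ) (Set.Ioi 0),
      bf (hess (DL (lt t) c)) x x * bf (hess (DL (lt t) c)) y y ≤
        bf (hess (DL (lt t) c)) x y ^ 2 := by
    filter_upwards [hpos, self_mem_nhdsWithin] with t ht ht0
    refine h (lt t) (by simp [hlt, hlen]) ?_ x y ht
    intro v hv i
    simp only [hlt, List.mem_map] at hv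
    obtain ⟨w, hw, rfl⟩ := hv
    have := hl w hw i
    have h3 : (0 : ℝ) < t := ht0
    linarith
  have t1 : Filter.Tendsto (fun t => bf (hess (DL (lt t) c)) x x * bf (hess (DL (lt t) c)) y y)
      (nhdsWithin (0 : ℝ) (Set.Ioi 0)) (nhds (bf (hess (DL l c)) x x * bf (hess (DL l c)) y y)) := by
    have h1 : Filter.Tendsto (fun t => bf (hess (DL (lt t) c)) x x * bf (hess (DL (lt t) c)) y y)
        (nhds 0) (nhds (bf (hess (DL (lt 0) c)) x x * bf (hess (DL (lt 0) c)) y y)) :=
      ((hbf x x).mul (hbf y y)).tendsto 0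
    rw [h0] at h1
    exact h1.mono_left nhdsWithin_le_nhds
  have t2 : Filter.Tendsto (fun t => bf (hess (DL (lt t) c)) x y ^ 2)
      (nhdsWithin (0 : ℝ) (Set.Ioi 0)) (nhds (bf (hess (DL l c)) x y ^ 2)) := by
    have h1 : Filter.Tendsto (fun t => bf (hess (DL (lt t) c)) x y ^ 2)
        (nhds 0) (nhds (bf (hess (DL (lt 0) c)) x y ^ 2)) :=
      ((hbf x y).pow 2).tendsto 0
    rw [h0] at h1
    exact h1.mono_left nhdsWithin_le_nhds
  exact le_of_tendsto_of_tendsto t1 t2 hev

/-- The main theorem: mixed derivatives of the indicator of an M-convex set in nonnegative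
directions are Lorentzian. -/
theorem main (k : ℕ) : ∀ (J : Set (ι → ℕ)), MConv J → (∀ α ∈ J, ∑ i, α i = k + 2) →
    ∀ l : List (ι → ℝ), l.length = k → (∀ v ∈ l, ∀ i, 0 ≤ v i) →
      IsLor (hess (DL l (ind J))) := by
  induction k with
  | zero =>
    intro J hJ _ l hlen _
    rw [List.length_eq_zero_iff] at hlen
    subst hlen
    exact base J hJ
  | succ k ih =>
    intro J hJ hdeg
    apply lor_of_pos
    intro l hlen hl
    rcases l with _ | ⟨v, l⟩
    · simp at hlen
    have hlen' : l.length = k := by simpa using hlen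
    have hv : ∀ i, 0 < v i := hl v (by simp)
    have hl' : ∀ w ∈ l, ∀ i, 0 < w i := fun w hw => hl w (by simp [hw])
    set T : ι → ι → ι → ℝ := fun a b c => DL l (ind J) (ee a + ee b + ee c) with hT
    have hTA : (fun a b => ∑ k, v k * T k a b) = hess (DL (v :: l) (ind J)) := by
      funext a b
      simp only [hess, DL_cons, D, hT]
      refine sum_congr rfl fun i _ => ?_
      rw [show ee i + ee a + ee b = ee a + ee b + ee i by rw [add_assoc, add_comm]]
    rw [← hTA]
    apply bochner T
    · intro i j k
      simp only [hT]; rw [add_comm (ee i)]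
    · intro i j k
      simp only [hT]; rw [add_right_comm]
    · intro i j k
      exact DL_nonneg l (fun w hw i => (hl' w hw i).le) _ (ind_nonneg J) _
    · exact hv
    · intro i
      have hi := ih {α | α + ee i ∈ J} (hJ.shift (ee i)) (by
        intro α hα
        have := hdeg _ hα
        simp only [Pi.add_apply, sum_add_distrib, sum_ee] at this
        omega) l hlen' (fun w hw i => (hl' w hw i).le)
      have e : T i = hess (DL l (ind {α | α + ee i ∈ J})) := by
        funext a b
        simp only [hT, hess]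
        have h1 : (ind {α | α + ee i ∈ J}) = fun β => ind J (β + ee i) := by
          funext β
          rfl
        rw [h1, DL_shift]
        congr 1
        rw [add_assoc, add_comm]
      rw [e]
      exact hi
    · intro r hr i j hi hj
      have hnl : ∀ i, ∑ b, (∑ k, v k * T k i b) * v b ≠ 0 → ∃ α ∈ J, 1 ≤ α i := by
        intro i hi
        obtain ⟨b, -, hb⟩ := exists_ne_zero_of_sum_ne_zero hi
        have hb' : ∑ k, v k * T k i b ≠ 0 := fun h => hb (by rw [h, zero_mul])
        obtain ⟨a, -, ha⟩ := exists_ne_zero_of_sum_ne_zero hb'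
        have ha' : T a i b ≠ 0 := fun h => ha (by rw [h, mul_zero])
        obtain ⟨γ, hγ, hle⟩ := DL_ne_zero l J _ ha'
        refine ⟨γ, hγ, le_trans ?_ (hle i)⟩
        simp only [Pi.add_apply, ee_apply, if_true]
        omega
      obtain ⟨α, hα, hαi⟩ := hnl i hi
      obtain ⟨β, hβ, hβj⟩ := hnl j hj
      refine connect hJ (by omega) hdeg r ?_ i j α β hα hβ hαi hβj
      intro a b ⟨γ, hγ, hle⟩
      apply hr a b
      have : 0 < DL (v :: l) (ind J) (ee a + ee b) := by
        apply DL_pos (v :: l) hl J _ γ hγ hle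
        rw [hdeg γ hγ]
        simp only [Pi.add_apply, sum_add_distrib, sum_ee]
        omega
      have e := congrFun (congrFun hTA a) b
      simp only [hess] at e
      rw [e]
      exact this.ne'

end Pool.Agent.Lor
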