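import Mathlib
import Pool.Agent.Lor.MConv

/-!
Application to the polynomial counting bases with a compatible colouring.
-/

set_option autoImplicit false

namespace Pool.Agent.Lor

open Finset

section induced

variable {E κ : Type} [DecidableEq E] [DecidableEq κ]

/-- Colour counts of a coloured set. -/
def cnt (B : Finset E) (g : E → κ) (k : κ) : ℕ := (B.filter (fun e => g e = k)).card

/-- Count vectors of admissible colourings of bases. -/
def IndM (M : Matroid E) (adm : E → κ → Prop) : Set (κ → ℕ) :=
  {α | ∃ B : Finset E, M.IsBase (B : Set E) ∧ ∃ g : E → κ, (∀ e ∈ B, adm e (g e)) ∧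
    ∀ k, α k = cnt B g k}

theorem cnt_update (B : Finset E) (g : E → κ) (e : E) (he : e ∈ B) (j k : κ) :
    cnt B (Function.update g e j) k + (if k = g e then 1 else 0) =
      cnt B g k + (if k = j then 1 else 0) := by
  have h1 : ∀ (f : E → κ), cnt B f k = cnt (B.erase e) f k + (if f e = k then 1 else 0) := by
    intro f
    unfold cnt
    conv_lhs => rw [← insert_erase he]
    rw [filter_insert]
    split_ifs with h
    · rw [card_insert_of_notMem (by simp)]
    · simp
  have h2 : cnt (B.erase e) (Function.update g e j) k = cnt (B.erase e) g k := by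
    unfold cnt
    congr 1
    apply filter_congr
    intro x hx
    rw [Function.update_of_ne (ne_of_mem_erase hx)]
  rw [h1 (Function.update g e j), h1 g, h2, Function.update_self]
  have e1 : (if j = k then (1 : ℕ) else 0) = if k = j then 1 else 0 := by
    simp only [eq_comm]
  have e2 : (if g e = k then (1 : ℕ) else 0) = if k = g e then 1 else 0 := by
    simp only [eq_comm]
  rw [e1, e2]; ring

theorem cnt_swap (B : Finset E) (g : E → κ) (e f : E) (he : e ∈ B) (hf : f ∉ B) (j k : κ) :
    cnt (insert f (B.erase e)) (Function.update g f j) k + (if k = g e then 1 else 0) =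
      cnt B g k + (if k = j then 1 else 0) := by
  have h1 : cnt B g k = cnt (B.erase e) g k + (if g e = k then 1 else 0) := by
    unfold cnt
    conv_lhs => rw [← insert_erase he]
    rw [filter_insert]
    split_ifs with h
    · rw [card_insert_of_notMem (by simp)]
    · simp
  have hf' : f ∉ B.erase e := fun h => hf (mem_of_mem_erase h)
  have h2 : cnt (insert f (B.erase e)) (Function.update g f j) k =
      cnt (B.erase e) g k + (if j = k then 1 else 0) := by
    unfold cnt
    rw [filter_insert, Function.update_self]
    have h3 : (B.erase e).filter (fun x => Function.update g f j x = k) =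
        (B.erase e).filter (fun x => g x = k) := by
      apply filter_congr
      intro x hx
      have : x ≠ f := fun h => hf' (h ▸ hx)
      rw [Function.update_of_ne this]
    rw [h3]
    split_ifs with h
    · rw [card_insert_of_notMem (by simp [hf])]
    · simp
  rw [h1, h2]
  have e1 : (if j = k then (1 : ℕ) else 0) = if k = j then 1 else 0 := by
    simp only [eq_comm]
  have e2 : (if g e = k then (1 : ℕ) else 0) = if k = g e then 1 else 0 := by
    simp only [eq_comm]
  rw [e1, e2]; ring

/-- Exchange along an alternating path. -/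
theorem exchange (M : Matroid E) (adm : E → κ → Prop) (B' : Finset E) (h : E → κ)
    (hB' : M.IsBase (B' : Set E)) (hh : ∀ e ∈ B', adm e (h e)) (n : ℕ) :
    ∀ (B : Finset E) (g : E → κ), (B.filter (fun e => ¬ (e ∈ B' ∧ g e = h e))).card = n →
      M.IsBase (B : Set E) → (∀ e ∈ B, adm e (g e)) → ∀ i, cnt B' h i < cnt B g i →
        ∃ j, cnt B g j < cnt B' h j ∧ ∃ (B₁ : Finset E) (g₁ : E → κ), M.IsBase (B₁ : Set E) ∧
          (∀ e ∈ B₁, adm e (g₁ e)) ∧
          ∀ k, cnt B₁ g₁ k + (if k = i then 1 else 0) = cnt B g k + (if k = j then 1 else 0) := by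
  induction n with
  | zero =>
    intro B g h0 hB hg i hi
    exfalso
    rw [card_eq_zero, filter_eq_empty_iff] at h0
    have hsub : B.filter (fun e => g e = i) ⊆ B'.filter (fun e => h e = i) := by
      intro e he
      rw [mem_filter] at he ⊢
      have := h0 he.1
      push Not at this
      exact ⟨this.1, this.2 ▸ he.2⟩
    exact absurd (card_le_card hsub) (not_le.2 hi)
  | succ n ih =>
    intro B g hn hB hg i hi
    -- a disagreeing element coloured i
    have hex : ∃ e ∈ B, g e = i ∧ ¬ (e ∈ B' ∧ h e = i) := by
      by_contra hno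
      push Not at hno
      have hsub : B.filter (fun e => g e = i) ⊆ B'.filter (fun e => h e = i) := by
        intro e he
        rw [mem_filter] at he ⊢
        exact hno e he.1 he.2
      exact absurd (card_le_card hsub) (not_le.2 hi)
    obtain ⟨e, heB, hgi, hdis⟩ := hex
    -- one step
    have hstep : ∃ (j : κ) (B₁ : Finset E) (g₁ : E → κ), M.IsBase (B₁ : Set E) ∧
        (∀ e ∈ B₁, adm e (g₁ e)) ∧
        (B₁.filter (fun e => ¬ (e ∈ B' ∧ g₁ e = h e))).card = n ∧
        ∀ k, cnt B₁ g₁ k + (if k = i then 1 else 0) = cnt B g k + (if k = j then 1 else 0) := by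
      have hmem : e ∈ B.filter (fun e => ¬ (e ∈ B' ∧ g e = h e)) := by
        rw [mem_filter]
        refine ⟨heB, fun hc => hdis ⟨hc.1, ?_⟩⟩
        rw [← hc.2, hgi]
      by_cases heB' : e ∈ B'
      · refine ⟨h e, B, Function.update g e (h e), hB, ?_, ?_, ?_⟩
        · intro x hx
          by_cases hxe : x = e
          · subst hxe
            rw [Function.update_self]
            exact hh x heB'
          · rw [Function.update_of_ne hxe]
            exact hg x hx
        · have : B.filter (fun x => ¬ (x ∈ B' ∧ Function.update g e (h e) x = h x)) =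
              (B.filter (fun e => ¬ (e ∈ B' ∧ g e = h e))).erase e := by
            ext x
            rw [mem_erase, mem_filter, mem_filter]
            by_cases hxe : x = e
            · subst hxe
              simp [heB']
            · rw [Function.update_of_ne hxe]
              simp [hxe]
          rw [this, card_erase_of_mem hmem, hn]; rfl
        · intro k
          have := cnt_update B g e heB (h e) k
          rw [hgi] at this
          exact this
      · have hsd : e ∈ (B : Set E) \ (B' : Set E) := ⟨heB, heB'⟩
        obtain ⟨f, hf, hbase⟩ := hB.exchange hB' hsd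
        have hfB' : f ∈ B' := hf.1
        have hfB : f ∉ B := hf.2
        refine ⟨h f, insert f (B.erase e), Function.update g f (h f), ?_, ?_, ?_, ?_⟩
        · rw [coe_insert, coe_erase]
          exact hbase
        · intro x hx
          by_cases hxf : x = f
          · subst hxf
            rw [Function.update_self]
            exact hh x hfB'
          · rw [Function.update_of_ne hxf]
            rw [mem_insert] at hx
            rcases hx with hx | hx
            · exact absurd hx hxf
            · exact hg x (mem_of_mem_erase hx)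
        · have : (insert f (B.erase e)).filter
              (fun x => ¬ (x ∈ B' ∧ Function.update g f (h f) x = h x)) =
              (B.filter (fun e => ¬ (e ∈ B' ∧ g e = h e))).erase e := by
            ext x
            rw [mem_erase, mem_filter, mem_filter, mem_insert, mem_erase]
            by_cases hxf : x = f
            · subst hxf
              simp [hfB', hfB]
            · rw [Function.update_of_ne hxf]
              simp only [hxf, false_or]
              tauto
          rw [this, card_erase_of_mem hmem, hn]; rfl
        · intro k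
          have := cnt_swap B g e f heB hfB (h f) k
          rw [hgi] at this
          exact this
    obtain ⟨j, B₁, g₁, hB₁, hg₁, hn₁, hk⟩ := hstep
    by_cases hji : j = i
    · subst hji
      have hk' : ∀ k, cnt B₁ g₁ k = cnt B g k := fun k => by
        have := hk k
        omega
      have hi' : cnt B' h j < cnt B₁ g₁ j := by rw [hk']; exact hi
      obtain ⟨j', h1, B₂, g₂, h2, h3, h4⟩ := ih B₁ g₁ hn₁ hB₁ hg₁ j hi'
      refine ⟨j', by rw [← hk']; exact h1, B₂, g₂, h2, h3, fun k => ?_⟩
      rw [h4 k, hk' k]
    · by_cases hlt : cnt B g j < cnt B' h j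
      · exact ⟨j, hlt, B₁, g₁, hB₁, hg₁, hk⟩
      · have hkj := hk j
        rw [if_neg hji, if_pos rfl] at hkj
        have hj' : cnt B' h j < cnt B₁ g₁ j := by omega
        obtain ⟨j', h1, B₂, g₂, h2, h3, h4⟩ := ih B₁ g₁ hn₁ hB₁ hg₁ j hj'
        have hj'j : j' ≠ j := by
          rintro rfl
          omega
        have hkj' := hk j'
        rw [if_neg hj'j] at hkj'
        have hj'i : j' ≠ i := by
          rintro rfl
          rw [if_pos rfl] at hkj'
          omega
        rw [if_neg hj'i] at hkj'
        refine ⟨j', by omega, B₂, g₂, h2, h3, fun k => ?_⟩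
        have e1 := h4 k
        have e2 := hk k
        omega

theorem mconv_IndM [Fintype κ] (M : Matroid E) (adm : E → κ → Prop) : MConv (IndM M adm) := by
  intro α ⟨B, hB, g, hg, hα⟩ β ⟨B', hB', h, hh, hβ⟩ i hi
  rw [hα, hβ] at hi
  obtain ⟨j, hj, B₁, g₁, hB₁, hg₁, hk⟩ := exchange M adm B' h hB' hh _ B g rfl hB hg i hi
  refine ⟨j, by rw [hα, hβ]; exact hj, fun k => cnt B₁ g₁ k, ⟨B₁, hB₁, g₁, hg₁, fun k => rfl⟩, ?_⟩
  funext k
  simp only [Pi.add_apply, ee_apply]
  rw [hk k, hα k]

end induced

/-- Direct sums of M-convex sets. -/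
theorem mconv_sum {ι₁ ι₂ : Type} [Fintype ι₁] [DecidableEq ι₁] [Fintype ι₂] [DecidableEq ι₂]
    {J₁ : Set (ι₁ → ℕ)} {J₂ : Set (ι₂ → ℕ)} (h₁ : MConv J₁) (h₂ : MConv J₂) :
    MConv {γ : ι₁ ⊕ ι₂ → ℕ | (fun i => γ (Sum.inl i)) ∈ J₁ ∧ (fun i => γ (Sum.inr i)) ∈ J₂} := by
  intro α ⟨hα1, hα2⟩ β ⟨hβ1, hβ2⟩ i hi
  rcases i with i | i
  · obtain ⟨j, hj, γ, hγ, hγe⟩ := h₁ _ hα1 _ hβ1 i hi
    refine ⟨Sum.inl j, hj, Sum.elim γ (fun i => α (Sum.inr i)), ⟨hγ, hα2⟩, ?_⟩
    funext k
    rcases k with k | k
    · have := congrFun hγe k
      simp only [Pi.add_apply, ee_apply, Sum.elim_inl, Sum.inl.injEq] at this ⊢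
      exact this
    · simp [ee_apply]
  · obtain ⟨j, hj, γ, hγ, hγe⟩ := h₂ _ hα2 _ hβ2 i hi
    refine ⟨Sum.inr j, hj, Sum.elim (fun i => α (Sum.inl i)) γ, ⟨hα1, hγ⟩, ?_⟩
    funext k
    rcases k with k | k
    · simp [ee_apply]
    · have := congrFun hγe k
      simp only [Pi.add_apply, ee_apply, Sum.elim_inr, Sum.inr.injEq] at this ⊢
      exact this

section expand

variable {n m : ℕ}

/-- The vector recording a subset in the last block and its complement in the middle block. -/
def vec (s B : Finset (Fin m)) : (Fin n ⊕ Fin m) ⊕ Fin m → ℕ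
  | Sum.inl (Sum.inl _) => 0
  | Sum.inl (Sum.inr e) => if e ∈ s ∧ e ∉ B then 1 else 0
  | Sum.inr e => if e ∈ B then 1 else 0

theorem exists_list (s : Finset (Fin m)) :
    ∃ l : List ((Fin n ⊕ Fin m) ⊕ Fin m → ℝ), l.length = s.card ∧ (∀ v ∈ l, ∀ i, 0 ≤ v i) ∧
      ∀ (c : ((Fin n ⊕ Fin m) ⊕ Fin m → ℕ) → ℝ) (γ : (Fin n ⊕ Fin m) ⊕ Fin m → ℕ),
        DL l c γ = ∑ B ∈ s.powerset, c (γ + vec s B) := by
  induction s using Finset.induction_on with
  | empty =>
    refine ⟨[], rfl, by simp, fun c γ => ?_⟩
    have : (vec ∅ ∅ : (Fin n ⊕ Fin m) ⊕ Fin m → ℕ) = 0 := by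
      funext i
      rcases i with (i | i) | i <;> simp [vec]
    simp [this]
  | insert a s ha ih =>
    obtain ⟨l, hlen, hnn, hl⟩ := ih
    refine ⟨(fun i => if i = Sum.inl (Sum.inr a) ∨ i = Sum.inr a then 1 else 0) :: l, ?_, ?_, ?_⟩
    · rw [List.length_cons, hlen, card_insert_of_notMem ha]
    · intro v hv i
      rw [List.mem_cons] at hv
      rcases hv with rfl | hv
      · dsimp only
        split_ifs <;> norm_num
      · exact hnn v hv i
    · intro c γ
      have hD : ∀ f : ((Fin n ⊕ Fin m) ⊕ Fin m → ℕ) → ℝ,
          D (fun i => if i = Sum.inl (Sum.inr a) ∨ i = Sum.inr a then (1 : ℝ) else 0) f γ =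
            f (γ + ee (Sum.inl (Sum.inr a))) + f (γ + ee (Sum.inr a)) := by
        intro f
        simp only [D, Fintype.sum_sum_type]
        have e1 : ∀ x : Fin n, (if (Sum.inl (Sum.inl x) : (Fin n ⊕ Fin m) ⊕ Fin m) =
            Sum.inl (Sum.inr a) ∨ (Sum.inl (Sum.inl x) : (Fin n ⊕ Fin m) ⊕ Fin m) = Sum.inr a
            then (1 : ℝ) else 0) = 0 := by
          intro x; simp
        have e2 : ∀ x : Fin m, (if (Sum.inl (Sum.inr x) : (Fin n ⊕ Fin m) ⊕ Fin m) =
            Sum.inl (Sum.inr a) ∨ (Sum.inl (Sum.inr x) : (Fin n ⊕ Fin m) ⊕ Fin m) = Sum.inr a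
            then (1 : ℝ) else 0) = if x = a then 1 else 0 := by
          intro x; simp
        have e3 : ∀ x : Fin m, (if (Sum.inr x : (Fin n ⊕ Fin m) ⊕ Fin m) =
            Sum.inl (Sum.inr a) ∨ (Sum.inr x : (Fin n ⊕ Fin m) ⊕ Fin m) = Sum.inr a
            then (1 : ℝ) else 0) = if x = a then 1 else 0 := by
          intro x; simp
        simp only [e1, e2, e3, zero_mul, sum_const_zero, zero_add, ite_mul, one_mul, sum_ite_eq',
          mem_univ, if_true]
      rw [DL_cons, hD, hl, hl, sum_powerset_insert ha]
      congr 1
      · refine sum_congr rfl fun B hB => ?_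
        rw [mem_powerset] at hB
        congr 1
        rw [add_assoc]
        congr 1
        have haB : a ∉ B := fun h => ha (hB h)
        funext i
        rcases i with (i | i) | i
        · simp [vec]
        · simp only [Pi.add_apply, ee_apply, vec, Sum.inl.injEq, Sum.inr.injEq, mem_insert]
          by_cases hi : i = a
          · subst hi; simp [ha, haB]
          · simp [hi]
        · simp [vec]
      · refine sum_congr rfl fun B hB => ?_
        rw [mem_powerset] at hB
        congr 1
        rw [add_assoc]
        congr 1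
        have haB : a ∉ B := fun h => ha (hB h)
        funext i
        rcases i with (i | i) | i
        · simp [vec]
        · simp only [Pi.add_apply, ee_apply, vec, mem_insert]
          by_cases hi : i = a
          · subst hi; simp [ha]
          · simp [hi]
        · simp only [Pi.add_apply, ee_apply, vec, Sum.inr.injEq, mem_insert]
          by_cases hi : i = a
          · subst hi; simp [haB]
          · simp [hi]

/-- Extension of an exponent by zero. -/
def ext0 (α : Fin n → ℕ) : (Fin n ⊕ Fin m) ⊕ Fin m → ℕ
  | Sum.inl (Sum.inl i) => α i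
  | Sum.inl (Sum.inr _) => 0
  | Sum.inr _ => 0

/-- Extension of a real vector by zero. -/
def ext0R (x : Fin n → ℝ) : (Fin n ⊕ Fin m) ⊕ Fin m → ℝ
  | Sum.inl (Sum.inl i) => x i
  | Sum.inl (Sum.inr _) => 0
  | Sum.inr _ => 0

theorem bf_ext0 (A : (Fin n ⊕ Fin m) ⊕ Fin m → (Fin n ⊕ Fin m) ⊕ Fin m → ℝ) (x y : Fin n → ℝ) :
    bf A (ext0R x) (ext0R y) =
      ∑ i, ∑ j, A (Sum.inl (Sum.inl i)) (Sum.inl (Sum.inl j)) * x i * y j := by
  simp [bf, Fintype.sum_sum_type, ext0R]

/-- The set of coloured bases with a given colour vector, through colouring functions. -/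
def good (M : Matroid (Fin m)) (S : Fin n → Finset (Fin m)) (α : Fin n → ℕ)
    (B : Finset (Fin m)) : Prop :=
  M.IsBase (B : Set (Fin m)) ∧ ∃ g : Fin m → Fin n, (∀ e ∈ B, e ∈ S (g e)) ∧ ∀ i, α i = cnt B g i

/-- Admissible colours in the auxiliary assignment. -/
def adm (S : Fin n → Finset (Fin m)) (e : Fin m) : Fin n ⊕ Fin m → Prop
  | Sum.inl i => e ∈ S i
  | Sum.inr f => f = e

/-- The first factor. -/
def J1 (S : Fin n → Finset (Fin m)) : Set (Fin n ⊕ Fin m → ℕ) :=
  IndM (Matroid.freeOn (Set.univ : Set (Fin m))) (adm S)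

/-- The second factor. -/
def J2 (M : Matroid (Fin m)) : Set (Fin m → ℕ) := IndM M (fun e k => k = e)

/-- The auxiliary M-convex set. -/
def JJ (M : Matroid (Fin m)) (S : Fin n → Finset (Fin m)) : Set ((Fin n ⊕ Fin m) ⊕ Fin m → ℕ) :=
  {γ | (fun i => γ (Sum.inl i)) ∈ J1 S ∧ (fun i => γ (Sum.inr i)) ∈ J2 M}

theorem mconv_JJ (M : Matroid (Fin m)) (S : Fin n → Finset (Fin m)) : MConv (JJ M S) :=
  mconv_sum (mconv_IndM _ _) (mconv_IndM _ _)

theorem mem_J2 (M : Matroid (Fin m)) (α : Fin m → ℕ) :
    α ∈ J2 M ↔ ∃ B : Finset (Fin m), M.IsBase (B : Set (Fin m)) ∧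
      ∀ k, α k = if k ∈ B then 1 else 0 := by
  have key : ∀ (B : Finset (Fin m)) (g : Fin m → Fin m), (∀ e ∈ B, g e = e) → ∀ k,
      cnt B g k = if k ∈ B then 1 else 0 := by
    intro B g hg k
    unfold cnt
    have : B.filter (fun e => g e = k) = if k ∈ B then {k} else ∅ := by
      ext x
      rw [mem_filter]
      split_ifs with h
      · rw [mem_singleton]
        constructor
        · intro hx
          rw [← hx.2, hg x hx.1]
        · rintro rfl
          exact ⟨h, hg _ h⟩
      · constructor
        · intro hx
          exfalso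
          apply h
          rw [← hx.2, hg x hx.1]
          exact hx.1
        · intro hx; simp at hx
    rw [this]
    split_ifs <;> simp
  constructor
  · rintro ⟨B, hB, g, hg, hα⟩
    exact ⟨B, hB, fun k => by rw [hα k, key B g hg k]⟩
  · rintro ⟨B, hB, hα⟩
    exact ⟨B, hB, fun e => e, fun e _ => rfl, fun k => by rw [hα k, key B _ (fun e _ => rfl) k]⟩

theorem J2_iff (M : Matroid (Fin m)) (B : Finset (Fin m)) :
    (fun k => if k ∈ B then 1 else 0) ∈ J2 M ↔ M.IsBase (B : Set (Fin m)) := by
  rw [mem_J2]
  constructor
  · rintro ⟨B', hB', h⟩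
    have : B = B' := by
      ext k
      have := h k
      by_cases h1 : k ∈ B <;> by_cases h2 : k ∈ B' <;> simp_all
    rw [this]; exact hB'
  · intro hB
    exact ⟨B, hB, fun k => rfl⟩

theorem J1_iff [Nonempty (Fin n)] (S : Fin n → Finset (Fin m)) (α : Fin n → ℕ)
    (B : Finset (Fin m)) :
    (Sum.elim α (fun e => if e ∉ B then 1 else 0)) ∈ J1 S ↔
      ∃ g : Fin m → Fin n, (∀ e ∈ B, e ∈ S (g e)) ∧ ∀ i, α i = cnt B g i := by
  constructor
  · rintro ⟨B', hB', g, hg, hα⟩
    have hB'u : B' = univ := by
      rw [Matroid.freeOn_isBase_iff] at hB'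
      ext x
      have : x ∈ (B' : Set (Fin m)) := by rw [hB']; trivial
      simpa using this
    subst hB'u
    have hin : ∀ e ∉ B, g e = Sum.inr e := by
      intro e he
      have h1 := hα (Sum.inr e)
      simp only [Sum.elim_inr, he, not_false_eq_true, if_true] at h1
      unfold cnt at h1
      have h2 : 0 < (univ.filter (fun x => g x = Sum.inr e)).card := by omega
      rw [card_pos] at h2
      obtain ⟨x, hx⟩ := h2
      rw [mem_filter] at hx
      have h3 := hg x (mem_univ x)
      rw [hx.2] at h3
      have h4 : e = x := h3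
      rw [h4]
      rw [← h4] at hx ⊢
      exact hx.2
    have hout : ∀ e ∈ B, ∃ i, g e = Sum.inl i := by
      intro e he
      rcases hge : g e with i | f
      · exact ⟨i, rfl⟩
      · exfalso
        have h3 := hg e (mem_univ e)
        rw [hge] at h3
        have h4 : f = e := h3
        subst h4
        have h1 := hα (Sum.inr f)
        simp only [Sum.elim_inr, he, not_true_eq_false, if_false] at h1
        unfold cnt at h1
        have h2 := h1.symm
        rw [card_eq_zero, filter_eq_empty_iff] at h2
        exact h2 (mem_univ f) hge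
    refine ⟨fun e => match g e with
      | Sum.inl i => i
      | Sum.inr _ => Classical.arbitrary _, ?_, ?_⟩
    · intro e he
      obtain ⟨i, hi⟩ := hout e he
      have h3 := hg e (mem_univ e)
      rw [hi] at h3
      simp only [hi]
      exact h3
    · intro i
      have h1 := hα (Sum.inl i)
      simp only [Sum.elim_inl] at h1
      rw [h1]
      unfold cnt
      congr 1
      ext x
      rw [mem_filter, mem_filter]
      constructor
      · rintro ⟨-, hx⟩
        have hxB : x ∈ B := by
          by_contra hno
          rw [hin x hno] at hx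
          exact absurd hx (by simp)
        refine ⟨hxB, ?_⟩
        simp [hx]
      · rintro ⟨hxB, hx⟩
        refine ⟨mem_univ x, ?_⟩
        obtain ⟨i', hi'⟩ := hout x hxB
        simp only [hi'] at hx
        rw [hi', hx]
  · rintro ⟨g, hg, hα⟩
    refine ⟨univ, by simp, fun e => if e ∈ B then Sum.inl (g e) else Sum.inr e, ?_, ?_⟩
    · intro e _
      by_cases he : e ∈ B
      · simp only [he, if_true]
        exact hg e he
      · simp only [he, if_false]
        rfl
    · intro k
      rcases k with i | f
      · simp only [Sum.elim_inl]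
        rw [hα i]
        unfold cnt
        congr 1
        ext x
        rw [mem_filter, mem_filter]
        by_cases hx : x ∈ B <;> simp [hx]
      · simp only [Sum.elim_inr]
        unfold cnt
        have : univ.filter (fun e => (if e ∈ B then (Sum.inl (g e) : Fin n ⊕ Fin m) else Sum.inr e)
            = Sum.inr f) = if f ∉ B then {f} else ∅ := by
          ext x
          rw [mem_filter]
          by_cases hx : x ∈ B
          · by_cases hf : f ∈ B
            · simp [hx, hf]
            · simp only [hx, if_true, hf, not_false_eq_true, mem_singleton]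
              constructor
              · intro h; simp at h
              · rintro rfl; exact absurd hx hf
          · by_cases hf : f ∈ B
            · simp only [hx, if_false, hf, not_true_eq_false]
              constructor
              · rintro ⟨-, h⟩
                have : x = f := by simpa using h
                subst this; exact absurd hf hx
              · intro h; simp at h
            · simp [hx, hf]
        rw [this]
        split_ifs <;> simp

end expand

end Pool.Agent.Lor
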