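import Pool.Agent.Lor.Apply

/-!
The polynomial counting bases with a compatible colouring, with weights, over arbitrary finite
index types.
-/

set_option autoImplicit false

namespace Pool.Agent.Lor.Wtd

open Finset Pool.Agent.Lor

variable {κ E : Type} [Fintype κ] [DecidableEq κ] [Fintype E] [DecidableEq E]

/-- The vector recording a subset in the last block and its complement in the middle block. -/
def vec (s B : Finset (E)) : (κ ⊕ E) ⊕ E → ℕ
  | Sum.inl (Sum.inl _) => 0
  | Sum.inl (Sum.inr e) => if e ∈ s ∧ e ∉ B then 1 else 0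
  | Sum.inr e => if e ∈ B then 1 else 0

theorem exists_list (w : E → ℝ) (hw : ∀ e, 0 ≤ w e) (s : Finset E) :
    ∃ l : List ((κ ⊕ E) ⊕ E → ℝ), l.length = s.card ∧ (∀ v ∈ l, ∀ i, 0 ≤ v i) ∧
      ∀ (c : ((κ ⊕ E) ⊕ E → ℕ) → ℝ) (γ : (κ ⊕ E) ⊕ E → ℕ),
        DL l c γ = ∑ B ∈ s.powerset, (∏ e ∈ B, w e) * c (γ + vec s B) := by
  induction s using Finset.induction_on with
  | empty =>
    refine ⟨[], rfl, by simp, fun c γ => ?_⟩
    have : (vec ∅ ∅ : (κ ⊕ E) ⊕ E → ℕ) = 0 := by
      funext i
      rcases i with (i | i) | i <;> simp [vec]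
    simp [this]
  | insert a s ha ih =>
    obtain ⟨l, hlen, hnn, hl⟩ := ih
    refine ⟨(fun i => if i = Sum.inl (Sum.inr a) then 1 else if i = Sum.inr a then w a else 0) :: l,
      ?_, ?_, ?_⟩
    · rw [List.length_cons, hlen, card_insert_of_notMem ha]
    · intro v hv i
      rw [List.mem_cons] at hv
      rcases hv with rfl | hv
      · dsimp only
        split_ifs
        · norm_num
        · exact hw a
        · exact le_rfl
      · exact hnn v hv i
    · intro c γ
      have hD : ∀ f : ((κ ⊕ E) ⊕ E → ℕ) → ℝ,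
          D (fun i => if i = Sum.inl (Sum.inr a) then (1 : ℝ) else
            if i = Sum.inr a then w a else 0) f γ =
            f (γ + ee (Sum.inl (Sum.inr a))) + w a * f (γ + ee (Sum.inr a)) := by
        intro f
        simp only [D, Fintype.sum_sum_type]
        have e1 : ∀ x : κ, (if (Sum.inl (Sum.inl x) : (κ ⊕ E) ⊕ E) =
            Sum.inl (Sum.inr a) then (1 : ℝ) else
            if (Sum.inl (Sum.inl x) : (κ ⊕ E) ⊕ E) = Sum.inr a then w a else 0) = 0 := by
          intro x; simp
        have e2 : ∀ x : E, (if (Sum.inl (Sum.inr x) : (κ ⊕ E) ⊕ E) =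
            Sum.inl (Sum.inr a) then (1 : ℝ) else
            if (Sum.inl (Sum.inr x) : (κ ⊕ E) ⊕ E) = Sum.inr a then w a else 0) =
              if x = a then 1 else 0 := by
          intro x; simp
        have e3 : ∀ x : E, (if (Sum.inr x : (κ ⊕ E) ⊕ E) =
            Sum.inl (Sum.inr a) then (1 : ℝ) else
            if (Sum.inr x : (κ ⊕ E) ⊕ E) = Sum.inr a then w a else 0) =
              if x = a then w a else 0 := by
          intro x; simp
        simp only [e1, e2, e3, zero_mul, sum_const_zero, zero_add, ite_mul, one_mul, sum_ite_eq',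
          mem_univ, if_true]
      rw [DL_cons, hD, hl, hl, sum_powerset_insert ha, mul_sum]
      congr 1
      · refine sum_congr rfl fun B hB => ?_
        rw [mem_powerset] at hB
        congr 2
        rw [add_assoc]
        congr 1
        have haB : a ∉ B := fun h => ha (hB h)
        funext i
        rcases i with (i | i) | i
        · simp [vec]
        · simp only [Pi.add_apply, ee_apply, vec, Sum.inl.injEq, Sum.inr.injEq, mem_insert]
          by_cases hi : i = a
          · subst hi; simp [ha, haB]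
          · simp [hi]
        · simp [vec]
      · refine sum_congr rfl fun B hB => ?_
        rw [mem_powerset] at hB
        have haB : a ∉ B := fun h => ha (hB h)
        rw [prod_insert haB, ← mul_assoc]
        congr 2
        rw [add_assoc]
        congr 1
        funext i
        rcases i with (i | i) | i
        · simp [vec]
        · simp only [Pi.add_apply, ee_apply, vec, mem_insert]
          by_cases hi : i = a
          · subst hi; simp [ha]
          · simp [hi]
        · simp only [Pi.add_apply, ee_apply, vec, Sum.inr.injEq, mem_insert]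
          by_cases hi : i = a
          · subst hi; simp [haB]
          · simp [hi]

/-- Extension of an exponent by zero. -/
def ext0 (α : κ → ℕ) : (κ ⊕ E) ⊕ E → ℕ
  | Sum.inl (Sum.inl i) => α i
  | Sum.inl (Sum.inr _) => 0
  | Sum.inr _ => 0

/-- Extension of a real vector by zero. -/
def ext0R (x : κ → ℝ) : (κ ⊕ E) ⊕ E → ℝ
  | Sum.inl (Sum.inl i) => x i
  | Sum.inl (Sum.inr _) => 0
  | Sum.inr _ => 0

theorem bf_ext0 (A : (κ ⊕ E) ⊕ E → (κ ⊕ E) ⊕ E → ℝ) (x y : κ → ℝ) :
    bf A (ext0R x) (ext0R y) =
      ∑ i, ∑ j, A (Sum.inl (Sum.inl i)) (Sum.inl (Sum.inl j)) * x i * y j := by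
  simp [bf, Fintype.sum_sum_type, ext0R]

/-- The set of coloured bases with a given colour vector, through colouring functions. -/
def good (M : Matroid (E)) (S : κ → Finset (E)) (α : κ → ℕ)
    (B : Finset (E)) : Prop :=
  M.IsBase (B : Set (E)) ∧ ∃ g : E → κ, (∀ e ∈ B, e ∈ S (g e)) ∧ ∀ i, α i = cnt B g i

/-- Admissible colours in the auxiliary assignment. -/
def adm (S : κ → Finset (E)) (e : E) : κ ⊕ E → Prop
  | Sum.inl i => e ∈ S i
  | Sum.inr f => f = e

/-- The first factor. -/
def J1 (S : κ → Finset (E)) : Set (κ ⊕ E → ℕ) :=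
  IndM (Matroid.freeOn (Set.univ : Set (E))) (adm S)

/-- The second factor. -/
def J2 (M : Matroid (E)) : Set (E → ℕ) := IndM M (fun e k => k = e)

/-- The auxiliary M-convex set. -/
def JJ (M : Matroid (E)) (S : κ → Finset (E)) : Set ((κ ⊕ E) ⊕ E → ℕ) :=
  {γ | (fun i => γ (Sum.inl i)) ∈ J1 S ∧ (fun i => γ (Sum.inr i)) ∈ J2 M}

theorem mconv_JJ (M : Matroid (E)) (S : κ → Finset (E)) : MConv (JJ M S) :=
  mconv_sum (mconv_IndM _ _) (mconv_IndM _ _)

theorem mem_J2 (M : Matroid (E)) (α : E → ℕ) :
    α ∈ J2 M ↔ ∃ B : Finset (E), M.IsBase (B : Set (E)) ∧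
      ∀ k, α k = if k ∈ B then 1 else 0 := by
  have key : ∀ (B : Finset (E)) (g : E → E), (∀ e ∈ B, g e = e) → ∀ k,
      cnt B g k = if k ∈ B then 1 else 0 := by
    intro B g hg k
    unfold cnt
    have : B.filter (fun e => g e = k) = if k ∈ B then {k} else ∅ := by
      ext x
      rw [mem_filter]
      split_ifs with h
      · rw [mem_singleton]
        constructor
        · intro hx
          rw [← hx.2, hg x hx.1]
        · rintro rfl
          exact ⟨h, hg _ h⟩
      · constructor
        · intro hx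
          exfalso
          apply h
          rw [← hx.2, hg x hx.1]
          exact hx.1
        · intro hx; simp at hx
    rw [this]
    split_ifs <;> simp
  constructor
  · rintro ⟨B, hB, g, hg, hα⟩
    exact ⟨B, hB, fun k => by rw [hα k, key B g hg k]⟩
  · rintro ⟨B, hB, hα⟩
    exact ⟨B, hB, fun e => e, fun e _ => rfl, fun k => by rw [hα k, key B _ (fun e _ => rfl) k]⟩

theorem J2_iff (M : Matroid (E)) (B : Finset (E)) :
    (fun k => if k ∈ B then 1 else 0) ∈ J2 M ↔ M.IsBase (B : Set (E)) := by
  rw [mem_J2]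
  constructor
  · rintro ⟨B', hB', h⟩
    have : B = B' := by
      ext k
      have := h k
      by_cases h1 : k ∈ B <;> by_cases h2 : k ∈ B' <;> simp_all
    rw [this]; exact hB'
  · intro hB
    exact ⟨B, hB, fun k => rfl⟩

theorem J1_iff [Nonempty (κ)] (S : κ → Finset (E)) (α : κ → ℕ)
    (B : Finset (E)) :
    (Sum.elim α (fun e => if e ∉ B then 1 else 0)) ∈ J1 S ↔
      ∃ g : E → κ, (∀ e ∈ B, e ∈ S (g e)) ∧ ∀ i, α i = cnt B g i := by
  constructor
  · rintro ⟨B', hB', g, hg, hα⟩
    have hB'u : B' = univ := by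
      rw [Matroid.freeOn_isBase_iff] at hB'
      ext x
      have : x ∈ (B' : Set (E)) := by rw [hB']; trivial
      simpa using this
    subst hB'u
    have hin : ∀ e ∉ B, g e = Sum.inr e := by
      intro e he
      have h1 := hα (Sum.inr e)
      simp only [Sum.elim_inr, he, not_false_eq_true, if_true] at h1
      unfold cnt at h1
      have h2 : 0 < (univ.filter (fun x => g x = Sum.inr e)).card := by omega
      rw [card_pos] at h2
      obtain ⟨x, hx⟩ := h2
      rw [mem_filter] at hx
      have h3 := hg x (mem_univ x)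
      rw [hx.2] at h3
      have h4 : e = x := h3
      rw [h4]
      rw [← h4] at hx ⊢
      exact hx.2
    have hout : ∀ e ∈ B, ∃ i, g e = Sum.inl i := by
      intro e he
      rcases hge : g e with i | f
      · exact ⟨i, rfl⟩
      · exfalso
        have h3 := hg e (mem_univ e)
        rw [hge] at h3
        have h4 : f = e := h3
        subst h4
        have h1 := hα (Sum.inr f)
        simp only [Sum.elim_inr, he, not_true_eq_false, if_false] at h1
        unfold cnt at h1
        have h2 := h1.symm
        rw [card_eq_zero, filter_eq_empty_iff] at h2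
        exact h2 (mem_univ f) hge
    refine ⟨fun e => match g e with
      | Sum.inl i => i
      | Sum.inr _ => Classical.arbitrary _, ?_, ?_⟩
    · intro e he
      obtain ⟨i, hi⟩ := hout e he
      have h3 := hg e (mem_univ e)
      rw [hi] at h3
      simp only [hi]
      exact h3
    · intro i
      have h1 := hα (Sum.inl i)
      simp only [Sum.elim_inl] at h1
      rw [h1]
      unfold cnt
      congr 1
      ext x
      rw [mem_filter, mem_filter]
      constructor
      · rintro ⟨-, hx⟩
        have hxB : x ∈ B := by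
          by_contra hno
          rw [hin x hno] at hx
          exact absurd hx (by simp)
        refine ⟨hxB, ?_⟩
        simp [hx]
      · rintro ⟨hxB, hx⟩
        refine ⟨mem_univ x, ?_⟩
        obtain ⟨i', hi'⟩ := hout x hxB
        simp only [hi'] at hx
        rw [hi', hx]
  · rintro ⟨g, hg, hα⟩
    refine ⟨univ, by simp, fun e => if e ∈ B then Sum.inl (g e) else Sum.inr e, ?_, ?_⟩
    · intro e _
      by_cases he : e ∈ B
      · simp only [he, if_true]
        exact hg e he
      · simp only [he, if_false]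
        rfl
    · intro k
      rcases k with i | f
      · simp only [Sum.elim_inl]
        rw [hα i]
        unfold cnt
        congr 1
        ext x
        rw [mem_filter, mem_filter]
        by_cases hx : x ∈ B <;> simp [hx]
      · simp only [Sum.elim_inr]
        unfold cnt
        have : univ.filter (fun e => (if e ∈ B then (Sum.inl (g e) : κ ⊕ E) else Sum.inr e)
            = Sum.inr f) = if f ∉ B then {f} else ∅ := by
          ext x
          rw [mem_filter]
          by_cases hx : x ∈ B
          · by_cases hf : f ∈ B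
            · simp [hx, hf]
            · simp only [hx, if_true, hf, not_false_eq_true, mem_singleton]
              constructor
              · intro h; simp at h
              · rintro rfl; exact absurd hx hf
          · by_cases hf : f ∈ B
            · simp only [hx, if_false, hf, not_true_eq_false]
              constructor
              · rintro ⟨-, h⟩
                have : x = f := by simpa using h
                subst this; exact absurd hf hx
              · intro h; simp at h
            · simp [hx, hf]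
        rw [this]
        split_ifs <;> simp

theorem sum_cnt (B : Finset E) (g : E → κ) : ∑ k, cnt B g k = B.card :=
  (card_eq_sum_card_fiberwise (fun _ _ => mem_univ _)).symm

theorem sum_JJ {d : ℕ} (M : Matroid E) (S : κ → Finset E)
    (hd : ∀ B : Finset E, M.IsBase (B : Set E) → B.card = d) (γ : (κ ⊕ E) ⊕ E → ℕ)
    (hγ : γ ∈ JJ M S) : ∑ i, γ i = Fintype.card E + d := by
  obtain ⟨⟨B₁, hB₁, g₁, -, h₁⟩, ⟨B₂, hB₂, g₂, -, h₂⟩⟩ := hγ
  rw [Fintype.sum_sum_type]
  have e1 : ∑ i, γ (Sum.inl i) = Fintype.card E := by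
    have : ∑ i, γ (Sum.inl i) = ∑ i, cnt B₁ g₁ i := sum_congr rfl fun i _ => h₁ i
    rw [this, sum_cnt]
    have hu : B₁ = univ := by
      rw [Matroid.freeOn_isBase_iff] at hB₁
      ext x
      have : x ∈ (B₁ : Set E) := by rw [hB₁]; trivial
      simpa using this
    rw [hu]; simp
  have e2 : ∑ i, γ (Sum.inr i) = d := by
    have : ∑ i, γ (Sum.inr i) = ∑ i, cnt B₂ g₂ i := sum_congr rfl fun i _ => h₂ i
    rw [this, sum_cnt]
    exact hd _ hB₂
  rw [e1, e2]

open Classical in
/-- The weighted number of bases with a colouring of colour vector `α`. -/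
noncomputable def cw (M : Matroid E) (S : κ → Finset E) (w : E → ℝ) (α : κ → ℕ) : ℝ :=
  ∑ B ∈ univ.filter (fun B : Finset E => good M S α B), ∏ e ∈ B, w e

theorem cw_nonneg (M : Matroid E) (S : κ → Finset E) (w : E → ℝ) (hw : ∀ e, 0 ≤ w e)
    (α : κ → ℕ) : 0 ≤ cw M S w α :=
  sum_nonneg fun _ _ => prod_nonneg fun e _ => hw e

/-- The matrices of the weighted numbers have the reversed Cauchy-Schwarz property. -/
theorem lor_cw [Nonempty κ] {d : ℕ} (M : Matroid E) (S : κ → Finset E)
    (hd : ∀ B : Finset E, M.IsBase (B : Set E) → B.card = d) (w : E → ℝ) (hw : ∀ e, 0 ≤ w e)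
    (β : κ → ℕ) (_hβ : ∑ i, β i + 2 = d) :
    IsLor (fun i j => cw M S w (β + ee i + ee j)) := by
  classical
  obtain ⟨l, hlen, hnn, hl⟩ := exists_list (κ := κ) w hw (univ : Finset E)
  have hlen' : l.length = Fintype.card E := by rw [hlen, card_univ]
  have hext : ∀ δ : κ → ℕ, ∑ i, (ext0 δ : (κ ⊕ E) ⊕ E → ℕ) i = ∑ i, δ i := by
    intro δ
    simp [Fintype.sum_sum_type, ext0]
  have hmain := main (Fintype.card E) {γ | γ + ext0 β ∈ JJ M S} ((mconv_JJ M S).shift (ext0 β)) (by
    intro γ hγ
    have h := sum_JJ M S hd _ hγ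
    simp only [Pi.add_apply, sum_add_distrib, hext] at h
    omega) l hlen' hnn
  have hentry : ∀ i j : κ,
      hess (DL l (ind {γ | γ + ext0 β ∈ JJ M S})) (Sum.inl (Sum.inl i)) (Sum.inl (Sum.inl j)) =
        cw M S w (β + ee i + ee j) := by
    intro i j
    unfold hess cw
    rw [hl, powerset_univ, sum_filter]
    refine sum_congr rfl fun B _ => ?_
    have hiff : ((ee (Sum.inl (Sum.inl i)) + ee (Sum.inl (Sum.inl j)) + vec univ B :
        (κ ⊕ E) ⊕ E → ℕ) ∈ {γ | γ + ext0 β ∈ JJ M S}) ↔ good M S (β + ee i + ee j) B := by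
      have e1 : ∀ k, ((ee (Sum.inl (Sum.inl i)) + ee (Sum.inl (Sum.inl j)) + vec univ B + ext0 β :
          (κ ⊕ E) ⊕ E → ℕ)) (Sum.inl k) =
          (Sum.elim (β + ee i + ee j) (fun e => if e ∉ B then 1 else 0) : κ ⊕ E → ℕ) k := by
        intro k
        rcases k with k | k
        · simp only [Pi.add_apply, ee_apply, vec, ext0, Sum.elim_inl, Sum.inl.injEq]
          ring
        · simp [ee_apply, vec, ext0]
      have e2 : ∀ k, ((ee (Sum.inl (Sum.inl i)) + ee (Sum.inl (Sum.inl j)) + vec univ B + ext0 β :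
          (κ ⊕ E) ⊕ E → ℕ)) (Sum.inr k) = if k ∈ B then 1 else 0 := by
        intro k
        simp [vec, ext0]
      change (_ + ext0 β) ∈ JJ M S ↔ _
      unfold JJ good
      change ((fun k => _) ∈ J1 S ∧ (fun k => _) ∈ J2 M) ↔ _
      simp only [e1, e2]
      rw [show (fun k => (Sum.elim (β + ee i + ee j)
            (fun e => if e ∉ B then 1 else 0) : κ ⊕ E → ℕ) k) =
            Sum.elim (β + ee i + ee j)
            (fun e => if e ∉ B then 1 else 0) from rfl, J1_iff, J2_iff, and_comm]
    unfold ind
    by_cases hg : good M S (β + ee i + ee j) B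
    · rw [if_pos (hiff.mpr hg), if_pos hg, mul_one]
    · rw [if_neg (fun h => hg (hiff.mp h)), if_neg hg, mul_zero]
  intro u v huv
  have h := hmain (ext0R u) (ext0R v)
  simp only [bf_ext0, hentry] at h
  exact h huv

theorem good_iff_mem (M : Matroid E) (S : κ → Finset E) (w : E → ℝ) (hw : ∀ e, 0 ≤ w e)
    (α : κ → ℕ) : cw M S w α ≠ 0 ↔ α ∈ IndM M (fun (e : E) (i : κ) => e ∈ S i ∧ w e ≠ 0) := by
  classical
  constructor
  · intro h
    obtain ⟨B, hB, hne⟩ := exists_ne_zero_of_sum_ne_zero h
    rw [mem_filter] at hB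
    obtain ⟨-, hB1, g, hg, hα⟩ := hB
    rw [prod_ne_zero_iff] at hne
    exact ⟨B, hB1, g, fun e he => ⟨hg e he, hne e he⟩, hα⟩
  · rintro ⟨B, hB, g, hg, hα⟩
    apply ne_of_gt
    refine sum_pos' (fun B _ => prod_nonneg fun e _ => hw e) ⟨B, ?_, ?_⟩
    · rw [mem_filter]
      exact ⟨mem_univ _, hB, g, fun e he => (hg e he).1, hα⟩
    · exact prod_pos fun e he => lt_of_le_of_ne (hw e) (hg e he).2.symm

/-- The support is M-convex. -/
theorem mconv_cw (M : Matroid E) (S : κ → Finset E) (w : E → ℝ) (hw : ∀ e, 0 ≤ w e)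
    (α β : κ → ℕ) (hα : cw M S w α ≠ 0) (hβ : cw M S w β ≠ 0) (i : κ) (hi : β i < α i) :
    ∃ j, α j < β j ∧ ∃ γ, cw M S w γ ≠ 0 ∧ γ + ee i = α + ee j := by
  rw [good_iff_mem M S w hw] at hα hβ
  obtain ⟨j, hj, γ, hγ, hγe⟩ := mconv_IndM M (fun (e : E) (i : κ) => e ∈ S i ∧ w e ≠ 0)
    α hα β hβ i hi
  exact ⟨j, hj, γ, (good_iff_mem M S w hw γ).mpr hγ, hγe⟩

end Pool.Agent.Lor.Wtd
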